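import Pool.Agent.H998.LT.Defs

set_option autoImplicit false

/-!
# Extension to all dimensions `d ≥ 2` (induction on the dimension)

From an example `(f, Λ)` in dimension `d` with Fourier transform `F ≥ 0` one gets the example
`f' (v) = f (tail v) h (v 0) + (∏ k (v_i)) h₂ (v 0)`, `Λ' = ℤ × Λ` in dimension `d + 1`.
-/

open MeasureTheory Real
open scoped FourierTransform ComplexConjugate

namespace Pool.Agent.H998.LT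

noncomputable section

/-- `F` is the Fourier transform of `f` -/
def IsFT {d : ℕ} (f F : (Fin d → ℝ) → ℝ) : Prop :=
  ∀ ξ : Fin d → ℝ, ∫ v : Fin d → ℝ, (f v : ℂ) * e (-(∑ i, ξ i * v i)) = (F ξ : ℂ)

/-- an example in dimension `d` -/
structure Ex (d : ℕ) (f F : (Fin d → ℝ) → ℝ) (Λ : Set (Fin d → ℝ)) (w : ℝ) : Prop where
  int : Integrable f
  bdd : BddDensity Λ
  ne : w ≠ 0
  tiles : Tiles f Λ w
  ft : IsFT f F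
  nonneg : ∀ ξ, 0 ≤ F ξ
  wit : ∀ b : Fin d → (Fin d → ℝ), LinearIndependent ℝ b →
    ∃ z : Fin d → ℤ, z ≠ 0 ∧ F (∑ i, (z i : ℝ) • b i) ≠ 0

/-- product with a function of the first coordinate -/
def pr {d : ℕ} (f : (Fin d → ℝ) → ℝ) (h : ℝ → ℝ) (v : Fin (d + 1) → ℝ) : ℝ :=
  f (Fin.tail v) * h (v 0)

/-- `∏ k (v_i)` -/
def tp {d : ℕ} (k : ℝ → ℝ) (v : Fin d → ℝ) : ℝ := ∏ i, k (v i)

/-- `ℤ × Λ` -/
def up {d : ℕ} (Λ : Set (Fin d → ℝ)) : Set (Fin (d + 1) → ℝ) :=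
  {v | Fin.tail v ∈ Λ ∧ ∃ n : ℤ, v 0 = n}

def S_prodft : Prop := ∀ (d : ℕ) (f F : (Fin d → ℝ) → ℝ), Integrable f → IsFT f F →
  ∀ (h H : ℝ → ℝ) (C : ℝ), Nice (fun y => (h y : ℂ)) (fun ξ => (H ξ : ℂ)) C →
  Integrable (pr f h) ∧ IsFT (pr f h) (pr F H)

def S_tpft : Prop := ∀ (d : ℕ) (h H : ℝ → ℝ) (C : ℝ),
  Nice (fun y => (h y : ℂ)) (fun ξ => (H ξ : ℂ)) C →
  Integrable (tp (d := d) h) ∧ IsFT (tp (d := d) h) (tp H)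

/-- absolute convergence almost everywhere -/
def S_abs : Prop := ∀ (d : ℕ) (f : (Fin d → ℝ) → ℝ), Integrable f → ∀ Λ : Set (Fin d → ℝ),
  BddDensity Λ → ∀ᵐ x : Fin d → ℝ, Summable fun a : Λ => |f (x - a)|

/-- sum over the integers: from `S_row` with `w = 1` -/
def S_int : Prop := ∀ (h H : ℝ → ℝ) (C : ℝ),
  Nice (fun y => (h y : ℂ)) (fun ξ => (H ξ : ℂ)) C → (∀ ξ, 1 / 4 ≤ |ξ| → H ξ = 0) →
  ∀ u : ℝ, HasSum (fun k : ℤ => h (u - k)) (H 0) ∧ Summable fun k : ℤ => |h (u - k)|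

def S_tilestep : Prop := ∀ (d : ℕ) (f g : (Fin d → ℝ) → ℝ) (Λ : Set (Fin d → ℝ)) (w : ℝ),
  Tiles f Λ w → (∀ᵐ x : Fin d → ℝ, Summable fun a : Λ => |g (x - a)|) →
  ∀ (h h2 : ℝ → ℝ) (c : ℝ),
  (∀ u : ℝ, HasSum (fun k : ℤ => h (u - k)) c ∧ Summable fun k : ℤ => |h (u - k)|) →
  (∀ u : ℝ, HasSum (fun k : ℤ => h2 (u - k)) 0 ∧ Summable fun k : ℤ => |h2 (u - k)|) →
  Tiles (fun v => pr f h v + pr g h2 v) (up Λ) (w * c)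

def S_bddstep : Prop := ∀ (d : ℕ) (Λ : Set (Fin d → ℝ)), BddDensity Λ → BddDensity (up Λ)

/-- linear algebra and pigeonhole. `F ≥ 0`, `K > 0`, `H, H2 ≥ 0`, `H 0 ≠ 0`, `H2 > 0` on
`0 < |ξ| < 1/4` -/
def S_witstep : Prop := ∀ (d : ℕ) (F K : (Fin d → ℝ) → ℝ), (∀ ξ, 0 ≤ F ξ) → (∀ ξ, 0 < K ξ) →
  (∀ b : Fin d → (Fin d → ℝ), LinearIndependent ℝ b →
    ∃ z : Fin d → ℤ, z ≠ 0 ∧ F (∑ i, (z i : ℝ) • b i) ≠ 0) →
  ∀ (H H2 : ℝ → ℝ), (∀ ξ, 0 ≤ H ξ) → (∀ ξ, ξ ≠ 0 → |ξ| < 1 / 4 → 0 < H2 ξ) → H 0 ≠ 0 →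
  H2 0 = 0 → ∀ b : Fin (d + 1) → (Fin (d + 1) → ℝ), LinearIndependent ℝ b →
    ∃ z : Fin (d + 1) → ℤ, z ≠ 0 ∧
      pr F H (∑ i, (z i : ℝ) • b i) + pr K H2 (∑ i, (z i : ℝ) • b i) ≠ 0

/-- a lattice tiling forces the Fourier transform to vanish on the nonzero points of the dual
lattice, any dimension -/
def S_dualD : Prop := ∀ (d : ℕ) (f : (Fin d → ℝ) → ℝ), Integrable f →
  ∀ (A : Matrix (Fin d) (Fin d) ℝ), A.det ≠ 0 → ∀ w' : ℝ, Tiles f (lattice A) w' →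
  ∀ ξ : Fin d → ℝ, ξ ≠ 0 →
  (∀ z : Fin d → ℤ, ∃ n : ℤ, ∑ i, ξ i * (A.mulVec (fun i => (z i : ℝ))) i = n) →
  ∫ v : Fin d → ℝ, (f v : ℂ) * e (-(∑ i, ξ i * v i)) = 0

/-- pigeonhole in the plane -/
def S_pigeon2 : Prop := ∀ b : Fin 2 → (Fin 2 → ℝ), LinearIndependent ℝ b →
  ∃ z : Fin 2 → ℤ, z ≠ 0 ∧ |(∑ i, (z i : ℝ) • b i) 0| < 1 / 4

/-- for an invertible `A` the dual lattice has a basis of `d` independent vectors -/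
def S_dualbasis : Prop := ∀ (d : ℕ) (A : Matrix (Fin d) (Fin d) ℝ), A.det ≠ 0 →
  ∃ b : Fin d → (Fin d → ℝ), LinearIndependent ℝ b ∧ ∀ y z : Fin d → ℤ, ∃ n : ℤ,
    ∑ i, (∑ j, (y j : ℝ) • b j) i * (A.mulVec (fun i => (z i : ℝ))) i = n

end

end Pool.Agent.H998.LT
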