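import Mathlib

set_option autoImplicit false

/-!
# Statements for MP_4be4c6_an

A function on the plane which tiles (level `≠ 0`) with a set of bounded density, but with no lattice.

`e t = exp (2 π i t)`.

Data: a fast growing sequence `m : ℕ → ℕ`, `θ = ∑ 1 / (2 m_i)`, `σ` real. Rows are indexed by
`(s, b, n) : Bool × Bool × ℤ`; the height of the row is `n + b θ` (for `s = false`) or
`√2 (n + b θ) + σ` (for `s = true`).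
-/

open MeasureTheory Real
open scoped FourierTransform ComplexConjugate

namespace Pool.Agent.H998.LT

noncomputable section

/-- `exp (2 π i t)` -/
def e (t : ℝ) : ℂ := Complex.exp (2 * π * t * Complex.I)

/-- a Fourier pair with quadratic decay on both sides -/
structure Nice (g G : ℝ → ℂ) (C : ℝ) : Prop where
  cont : Continuous g
  contF : Continuous G
  bound : ∀ y, ‖g y‖ ≤ C / (1 + y ^ 2)
  boundF : ∀ ξ, ‖G ξ‖ ≤ C / (1 + ξ ^ 2)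
  fourier : ∀ ξ, 𝓕 g ξ = G ξ

/-- the conditions on the sequence `m` -/
structure IsSeq (m : ℕ → ℕ) : Prop where
  pos : ∀ l, 0 < m l
  div : ∀ l, 8 * (l + 1) * m l ∣ m (l + 1)
  grow : ∀ l, 2 ^ (l + 4) * m l ≤ m (l + 1)
  quarter : ∀ l : ℕ, ∃ z : ℤ, |(m l : ℝ) / √2 - 1 / 4 - z| ≤ 1 / (l + 1)

/-- existence of the sequence. Proof: recursively, multiples of the irrational number `q / √2`
(`q = 8 (l + 1) m_l`) are dense modulo `1`, with arbitrarily large positive multipliers -/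
def S_seq : Prop := ∃ m : ℕ → ℕ, IsSeq m

/-- `θ = ∑ 1 / (2 m_i)` -/
def th (m : ℕ → ℕ) : ℝ := ∑' i, 1 / (2 * (m i : ℝ))

/-- `C_l = 1 + e (- m_l θ)` -/
def cc (m : ℕ → ℕ) (l : ℕ) : ℂ := 1 + e (-(m l * th m))

/-- `0 < θ < 1` and the `C_l` are small. Proof: `m_l θ = integer + 1/2 + ε` with
`0 ≤ ε = ∑_{i > l} m_l / (2 m_i) ≤ (4/7) 2^(-(l+4))`, so `|C_l| ≤ 2 π ε ≤ 2^(-(l+2))`. -/
def S_theta : Prop := ∀ m : ℕ → ℕ, IsSeq m →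
  0 < th m ∧ th m < 1 ∧ ∀ l, ‖cc m l‖ ≤ (1 / 2 : ℝ) ^ (l + 2)

/-- modulated Poisson formula -/
def S_poisson : Prop := ∀ (g G : ℝ → ℂ) (C : ℝ), Nice g G C → ∀ T : ℝ, 0 < T → ∀ τ γ y : ℝ,
  (Summable fun n : ℤ => ‖g (y - (T * n + τ))‖) ∧
  (Summable fun k : ℤ => ‖G (k / T + γ)‖) ∧
  (T : ℂ) * ∑' n : ℤ, e (γ * (T * n + τ)) * g (y - (T * n + τ)) =
    ∑' k : ℤ, G (k / T + γ) * e (-(k * τ / T)) * e ((k / T + γ) * y)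

/-- a summation over `ℤ` supported on `0`, `m_l`, `- m_l` -/
def S_tsumZ : Prop := ∀ (m : ℕ → ℕ), (∀ l, 0 < m l) → StrictMono m → ∀ F : ℤ → ℂ, Summable F →
  (∀ k : ℤ, k ≠ 0 → (∀ l, k ≠ m l ∧ k ≠ -(m l : ℤ)) → F k = 0) →
  (Summable fun l => F (m l) + F (-(m l : ℤ))) ∧
  ∑' k, F k = F 0 + ∑' l, (F (m l) + F (-(m l : ℤ)))

/-- interchange of summations: `P` an index type, `X p` the points, `g p` summable, `c l` summable -/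
def S_swap : Prop := ∀ (P : Type) [Countable P] (X : P → ℝ) (g : P → ℂ),
  (Summable fun p => ‖g p‖) → ∀ (c : ℕ → ℂ), (Summable fun l => ‖c l‖) → ∀ (φ : ℕ → ℝ),
  (Summable fun p => ‖(((1 - ∑' l, (c l * e (φ l * X p)).re : ℝ)) : ℂ) * g p‖) ∧
  (Summable fun l => c l * ∑' p, e (φ l * X p) * g p) ∧
  (Summable fun l => conj (c l) * ∑' p, e (-φ l * X p) * g p) ∧
  ∑' p, (((1 - ∑' l, (c l * e (φ l * X p)).re : ℝ)) : ℂ) * g p =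
    ∑' p, g p - 1 / 2 * ∑' l, (c l * ∑' p, e (φ l * X p) * g p)
      - 1 / 2 * ∑' l, (conj (c l) * ∑' p, e (-φ l * X p) * g p)

/-- one system of rows. `X (b, n) = T (n + b θ) + σ`, own frequencies `k / T`, other special
frequencies `φ l` with coefficients `c l` -/
def S_single : Prop := ∀ (m : ℕ → ℕ), (∀ l, 0 < m l) → StrictMono m →
  ∀ (g G : ℝ → ℂ) (C : ℝ), Nice g G C → ∀ (T σ θ : ℝ), 0 < T →
  ∀ (c : ℕ → ℂ), (Summable fun l => ‖c l‖) → ∀ (φ : ℕ → ℝ),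
  (∀ k : ℤ, k ≠ 0 → (∀ l, k ≠ m l ∧ k ≠ -(m l : ℤ)) → G (k / T) = 0) →
  (∀ k : ℤ, k ≠ 0 → ∀ l, G (k / T + φ l) = 0 ∧ G (k / T - φ l) = 0) →
  ∀ (X : Bool × ℤ → ℝ), (∀ p, X p = T * (p.2 + if p.1 then θ else 0) + σ) → ∀ y : ℝ,
  (Summable fun p : Bool × ℤ =>
    ‖((T * (1 - ∑' l, (c l * e (φ l * X p)).re) : ℝ) : ℂ) * g (y - X p)‖) ∧
  (Summable fun l : ℕ => (1 + e (-(m l * θ))) * e (-(m l * σ / T)) * G (m l / T) * e (m l / T * y)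
      + conj ((1 + e (-(m l * θ))) * e (-(m l * σ / T))) * G (-(m l / T)) * e (-(m l / T * y))) ∧
  (Summable fun l : ℕ => c l * G (φ l) * e (φ l * y) + conj (c l) * G (-φ l) * e (-(φ l * y))) ∧
  ∑' p : Bool × ℤ, ((T * (1 - ∑' l, (c l * e (φ l * X p)).re) : ℝ) : ℂ) * g (y - X p) =
    2 * G 0
    + ∑' l : ℕ, ((1 + e (-(m l * θ))) * e (-(m l * σ / T)) * G (m l / T) * e (m l / T * y)
      + conj ((1 + e (-(m l * θ))) * e (-(m l * σ / T))) * G (-(m l / T)) * e (-(m l / T * y)))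
    - ∑' l : ℕ, (c l * G (φ l) * e (φ l * y) + conj (c l) * G (-φ l) * e (-(φ l * y)))

/-! the two systems -/

/-- `T_s`: `1` or `√2` -/
def per (s : Bool) : ℝ := if s then √2 else 1

/-- `σ_s`: `0` or `σ` -/
def off (σ : ℝ) (s : Bool) : ℝ := if s then σ else 0

/-- the index type of the rows -/
abbrev Row := Bool × Bool × ℤ

/-- height of the row -/
def hgt (θ σ : ℝ) (r : Row) : ℝ := per r.1 * (r.2.2 + if r.2.1 then θ else 0) + off σ r.1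

/-- coefficient of the system `s` at its frequency `m_l / T_s` -/
def cf (m : ℕ → ℕ) (σ : ℝ) (s : Bool) (l : ℕ) : ℂ :=
  cc m l * e (-(m l * off σ s / per s))

/-- weight of a row: `T_s (1 - ∑ Re (c_{s', l} e (m_l / T_{s'} x)))`, `s'` the other system -/
def wt (m : ℕ → ℕ) (σ : ℝ) (r : Row) : ℝ :=
  per r.1 * (1 - ∑' l, (cf m σ (!r.1) l * e (m l / per (!r.1) * hgt (th m) σ r)).re)

/-- the set where `ĝ` has to vanish -/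
def Bad (m : ℕ → ℕ) : Set ℝ :=
  {ξ | (∃ k : ℤ, k ≠ 0 ∧ (∀ l, k ≠ m l ∧ k ≠ -(m l : ℤ)) ∧ (ξ = k ∨ ξ = k / √2)) ∨
    ∃ k : ℤ, k ≠ 0 ∧ ∃ l, (ξ = k + m l / √2 ∨ ξ = k - m l / √2 ∨ ξ = k / √2 + m l ∨
      ξ = k / √2 - m l)}

/-- the weights are between `1/2` and `9/4` -/
def S_wt : Prop := ∀ (m : ℕ → ℕ), IsSeq m → ∀ (σ : ℝ) (r : Row),
  1 / 2 ≤ wt m σ r ∧ wt m σ r ≤ 9 / 4

/-- the main identity -/
def S_main : Prop := ∀ (m : ℕ → ℕ), IsSeq m → ∀ (σ : ℝ) (g G : ℝ → ℂ) (C : ℝ), Nice g G C →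
  (∀ ξ ∈ Bad m, G ξ = 0) → ∀ y : ℝ,
  (Summable fun r : Row => ‖(wt m σ r : ℂ) * g (y - hgt (th m) σ r)‖) ∧
  ∑' r : Row, (wt m σ r : ℂ) * g (y - hgt (th m) σ r) = 4 * G 0

/-- `σ` can be chosen such that the heights are distinct -/
def S_sigma : Prop := ∀ θ : ℝ, 0 < θ → θ < 1 → ∃ σ : ℝ, Function.Injective (hgt θ σ)

/-- gap lemma. `τ_l` tends to `t` modulo `1`, `p` is not in `t + ℤ`, and `p ≠ k + τ_l` for `k ≠ 0` -/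
def S_gap : Prop := ∀ (τ : ℕ → ℝ) (t p : ℝ),
  (∀ ε > 0, ∃ l0, ∀ l ≥ l0, ∃ z : ℤ, |τ l - t - z| ≤ ε) → (∀ z : ℤ, p ≠ t + z) →
  (∀ l, ∀ k : ℤ, k ≠ 0 → p ≠ k + τ l) → ∃ δ > 0, ∀ l, ∀ k : ℤ, k ≠ 0 → δ ≤ |p - (k + τ l)|

/-- every nonzero real has a multiple outside the closure of the bad set; `0` is not in it -/
def S_mult : Prop := ∀ m : ℕ → ℕ, IsSeq m → (0 : ℝ) ∉ closure (Bad m) ∧
  ∀ x : ℝ, x ≠ 0 → ∃ j : ℤ, j ≠ 0 ∧ (j * x) ∉ closure (Bad m)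

/-- construction of kernels: even nonnegative Fourier transform vanishing exactly on a closed
symmetric set -/
def S_kernel : Prop := ∀ Z : Set ℝ, IsClosed Z → (∀ x ∈ Z, -x ∈ Z) →
  ∃ (g G : ℝ → ℝ) (C : ℝ), Nice (fun y => (g y : ℂ)) (fun ξ => (G ξ : ℂ)) C ∧
    (∀ ξ, 0 ≤ G ξ) ∧ ∀ ξ, G ξ = 0 ↔ ξ ∈ Z

/-- sums over one row. `h` has Fourier transform `H` vanishing outside `(-1/4, 1/4)`; `w ≥ 1/2` the
density of the row -/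
def S_row : Prop := ∀ (h H : ℝ → ℝ) (C : ℝ),
  Nice (fun y => (h y : ℂ)) (fun ξ => (H ξ : ℂ)) C → (∀ ξ, 1 / 4 ≤ |ξ| → H ξ = 0) →
  ∃ D : ℝ, ∀ w : ℝ, 1 / 2 ≤ w → w ≤ 9 / 4 → ∀ u : ℝ,
    HasSum (fun k : ℤ => h (u - k / w)) (w * H 0) ∧
    (Summable fun k : ℤ => |h (u - k / w)|) ∧ ∑' k : ℤ, |h (u - k / w)| ≤ D

/-! the plane -/

/-- `f + Λ` is a tiling at level `w` -/
def Tiles {d : ℕ} (f : (Fin d → ℝ) → ℝ) (Λ : Set (Fin d → ℝ)) (w : ℝ) : Prop :=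
  ∀ᵐ x : Fin d → ℝ, HasSum (fun a : Λ => f (x - a)) w

/-- bounded density (open Euclidean unit balls) -/
def BddDensity {d : ℕ} (Λ : Set (Fin d → ℝ)) : Prop :=
  ∃ M : ℕ, ∀ x : Fin d → ℝ, (Λ ∩ {y | ∑ i, (y i - x i) ^ 2 < 1}).encard ≤ M

/-- the lattice `A ℤᵈ` -/
def lattice {d : ℕ} (A : Matrix (Fin d) (Fin d) ℝ) : Set (Fin d → ℝ) :=
  Set.range fun z : Fin d → ℤ => A.mulVec fun i => (z i : ℝ)

/-- the point set: the row `r` at height `x r` is `(1 / w_r) ℤ` -/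
def Lam (x w : Row → ℝ) : Set (Fin 2 → ℝ) :=
  Set.range fun p : Row × ℤ => ![p.2 / w p.1, x p.1]

/-- the function `h ⊗ g + h₂ ⊗ k` -/
def ff (h g h2 k : ℝ → ℝ) (v : Fin 2 → ℝ) : ℝ := h (v 0) * g (v 1) + h2 (v 0) * k (v 1)

/-- bounded density of the point set -/
def S_bdd : Prop := ∀ (θ σ : ℝ) (w : Row → ℝ), (∀ r, w r ≤ 9 / 4) → (∀ r, 1 / 2 ≤ w r) →
  BddDensity (Lam (hgt θ σ) w)

/-- the tiling -/
def S_tile : Prop := ∀ (θ σ : ℝ), Function.Injective (hgt θ σ) →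
  ∀ (w : Row → ℝ), (∀ r, w r ≤ 9 / 4) → (∀ r, 1 / 2 ≤ w r) →
  ∀ (h g h2 k H G H2 K : ℝ → ℝ) (C : ℝ),
  Nice (fun y => (h y : ℂ)) (fun ξ => (H ξ : ℂ)) C →
  Nice (fun y => (g y : ℂ)) (fun ξ => (G ξ : ℂ)) C →
  Nice (fun y => (h2 y : ℂ)) (fun ξ => (H2 ξ : ℂ)) C →
  Nice (fun y => (k y : ℂ)) (fun ξ => (K ξ : ℂ)) C →
  (∀ ξ, 1 / 4 ≤ |ξ| → H ξ = 0) → (∀ ξ, 1 / 4 ≤ |ξ| → H2 ξ = 0) → H2 0 = 0 →
  (∀ y : ℝ, (Summable fun r : Row => ‖(w r : ℂ) * (g (y - hgt θ σ r) : ℂ)‖) ∧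
    ∑' r : Row, (w r : ℂ) * (g (y - hgt θ σ r) : ℂ) = 4 * (G 0 : ℂ)) →
  Integrable (ff h g h2 k) ∧
  ∀ v : Fin 2 → ℝ, HasSum (fun a : Lam (hgt θ σ) w => ff h g h2 k (v - a)) (H 0 * (4 * G 0))

/-- a lattice tiling forces the Fourier transform to vanish on the nonzero points of the dual
lattice -/
def S_dual : Prop := ∀ (f : (Fin 2 → ℝ) → ℝ), Integrable f → ∀ (A : Matrix (Fin 2) (Fin 2) ℝ),
  A.det ≠ 0 → ∀ w' : ℝ, Tiles f (lattice A) w' → ∀ ξ : Fin 2 → ℝ, ξ ≠ 0 →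
  (∀ z : Fin 2 → ℤ, ∃ n : ℤ, ∑ i, ξ i * (A.mulVec (fun i => (z i : ℝ))) i = n) →
  ∫ v : Fin 2 → ℝ, (f v : ℂ) * e (-(∑ i, ξ i * v i)) = 0

/-- Fourier transform of `ff` -/
def S_ft : Prop := ∀ (h g h2 k H G H2 K : ℝ → ℝ) (C : ℝ),
  Nice (fun y => (h y : ℂ)) (fun ξ => (H ξ : ℂ)) C →
  Nice (fun y => (g y : ℂ)) (fun ξ => (G ξ : ℂ)) C →
  Nice (fun y => (h2 y : ℂ)) (fun ξ => (H2 ξ : ℂ)) C →
  Nice (fun y => (k y : ℂ)) (fun ξ => (K ξ : ℂ)) C →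
  ∀ ξ : Fin 2 → ℝ, ∫ v : Fin 2 → ℝ, (ff h g h2 k v : ℂ) * e (-(∑ i, ξ i * v i)) =
    ((H (ξ 0) * G (ξ 1) + H2 (ξ 0) * K (ξ 1) : ℝ) : ℂ)

/-- pigeonhole in the dual lattice: for every invertible `A` there is a nonzero vector of the dual
lattice with first coordinate in `(-1/4, 1/4)` -/
def S_pigeon : Prop := ∀ (A : Matrix (Fin 2) (Fin 2) ℝ), A.det ≠ 0 →
  ∃ ξ : Fin 2 → ℝ, ξ ≠ 0 ∧ |ξ 0| < 1 / 4 ∧
  ∀ z : Fin 2 → ℤ, ∃ n : ℤ, ∑ i, ξ i * (A.mulVec (fun i => (z i : ℝ))) i = n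

end

end Pool.Agent.H998.LT
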