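import Pool.Agent.H998.LT.Defs

set_option autoImplicit false

open MeasureTheory Real
open scoped FourierTransform ComplexConjugate

namespace Pool.Agent.H998.LT

theorem Nice.mono {g G : ℝ → ℂ} {C C' : ℝ} (h : Nice g G C) (hC : C ≤ C') : Nice g G C' where
  cont := h.cont
  contF := h.contF
  bound y := (h.bound y).trans (div_le_div_of_nonneg_right hC (by positivity))
  boundF y := (h.boundF y).trans (div_le_div_of_nonneg_right hC (by positivity))
  fourier := h.fourier

theorem Bad_neg (m : ℕ → ℕ) (x : ℝ) (hx : x ∈ Bad m) : -x ∈ Bad m := by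
  rcases hx with ⟨k, hk, hl, h⟩ | ⟨k, hk, l, h⟩
  · refine Or.inl ⟨-k, neg_ne_zero.2 hk, fun l => ⟨?_, ?_⟩, ?_⟩
    · intro h'
      exact (hl l).2 (by omega)
    · intro h'
      exact (hl l).1 (by omega)
    · rcases h with h | h
      · left; rw [h]; push_cast; ring
      · right; rw [h]; push_cast; ring
  · refine Or.inr ⟨-k, neg_ne_zero.2 hk, l, ?_⟩
    rcases h with h | h | h | h
    · right; left; rw [h]; push_cast; ring
    · left; rw [h]; push_cast; ring
    · right; right; right; rw [h]; push_cast; ring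
    · right; right; left; rw [h]; push_cast; ring

theorem closure_neg' (S : Set ℝ) (hS : ∀ x ∈ S, -x ∈ S) (x : ℝ) (hx : x ∈ closure S) :
    -x ∈ closure S := by
  have h : Set.MapsTo (fun x : ℝ => -x) (closure S) (closure S) :=
    Set.MapsTo.closure (fun x hx => hS x hx) continuous_neg
  exact h hx

theorem final (h_seq : S_seq) (h_theta : S_theta) (h_wt : S_wt) (h_main : S_main)
    (h_sigma : S_sigma) (h_mult : S_mult) (h_kernel : S_kernel) (h_bdd : S_bdd) (h_tile : S_tile)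
    (h_dual : S_dual) (h_ft : S_ft) (h_pigeon : S_pigeon) :
    ∃ (f : (Fin 2 → ℝ) → ℝ) (Λ : Set (Fin 2 → ℝ)) (w : ℝ), Integrable f ∧ BddDensity Λ ∧ w ≠ 0 ∧
      Tiles f Λ w ∧ ∀ A : Matrix (Fin 2) (Fin 2) ℝ, A.det ≠ 0 → ∀ w' : ℝ,
        ¬ Tiles f (lattice A) w' := by
  obtain ⟨m, hm⟩ := h_seq
  obtain ⟨hth0, hth1, -⟩ := h_theta m hm
  obtain ⟨σ, hσ⟩ := h_sigma (th m) hth0 hth1
  obtain ⟨h0, hmul⟩ := h_mult m hm
  obtain ⟨g, G, C1, hg, hG0, hGZ⟩ := h_kernel (closure (Bad m)) isClosed_closure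
    (closure_neg' _ (Bad_neg m))
  obtain ⟨h, H, C2, hh, hH0, hHZ⟩ := h_kernel {x | 1 / 4 ≤ |x|}
    (isClosed_le continuous_const continuous_abs) (fun x hx => by simpa using hx)
  obtain ⟨h2, H2, C3, hh2, hH20, hH2Z⟩ := h_kernel ({x | 1 / 4 ≤ |x|} ∪ {0})
    ((isClosed_le continuous_const continuous_abs).union isClosed_singleton)
    (fun x hx => by simpa using hx)
  obtain ⟨k, K, C4, hk, hK0, hKZ⟩ := h_kernel ∅ isClosed_empty (by simp)
  set C := max (max C1 C2) (max C3 C4) with hC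
  have hg' := hg.mono (C' := C) ((le_max_left _ _).trans (le_max_left _ _))
  have hh' := hh.mono (C' := C) ((le_max_right _ _).trans (le_max_left _ _))
  have hh2' := hh2.mono (C' := C) ((le_max_left _ _).trans (le_max_right _ _))
  have hk' := hk.mono (C' := C) ((le_max_right _ _).trans (le_max_right _ _))
  have hG00 : G 0 ≠ 0 := fun h => h0 ((hGZ 0).1 h)
  have hH00 : H 0 ≠ 0 := by
    intro h
    have := (hHZ 0).1 h
    simp only [Set.mem_setOf_eq, abs_zero] at this
    norm_num at this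
  have hH2c : H2 0 = 0 := (hH2Z 0).2 (by simp)
  have hv1 : ∀ ξ, 1 / 4 ≤ |ξ| → H ξ = 0 := fun ξ hξ => (hHZ ξ).2 hξ
  have hv2 : ∀ ξ, 1 / 4 ≤ |ξ| → H2 ξ = 0 := fun ξ hξ => (hH2Z ξ).2 (Or.inl hξ)
  have hmain := h_main m hm σ (fun y => (g y : ℂ)) (fun ξ => (G ξ : ℂ)) C hg'
    (fun ξ hξ => by
      have := (hGZ ξ).2 (subset_closure hξ)
      simp [this])
  obtain ⟨hint, htile⟩ := h_tile (th m) σ hσ (wt m σ) (fun r => (h_wt m hm σ r).2)
    (fun r => (h_wt m hm σ r).1) h g h2 k H G H2 K C hh' hg' hh2' hk' hv1 hv2 hH2c hmain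
  refine ⟨ff h g h2 k, Lam (hgt (th m) σ) (wt m σ), H 0 * (4 * G 0), hint,
    h_bdd (th m) σ (wt m σ) (fun r => (h_wt m hm σ r).2) (fun r => (h_wt m hm σ r).1), ?_,
    Filter.Eventually.of_forall htile, ?_⟩
  · positivity
  · intro A hA w' hT
    have key : ∀ ξ : Fin 2 → ℝ, ξ ≠ 0 →
        (∀ z : Fin 2 → ℤ, ∃ n : ℤ, ∑ i, ξ i * (A.mulVec (fun i => (z i : ℝ))) i = n) →
        H (ξ 0) * G (ξ 1) + H2 (ξ 0) * K (ξ 1) = 0 := by
      intro ξ hξ hz
      have h1 := h_dual (ff h g h2 k) hint A hA w' hT ξ hξ hz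
      rw [h_ft h g h2 k H G H2 K C hh' hg' hh2' hk' ξ] at h1
      exact_mod_cast h1
    obtain ⟨ξ, hξ, hξ0, hz⟩ := h_pigeon A hA
    by_cases hc : ξ 0 = 0
    · have hξ1 : ξ 1 ≠ 0 := by
        intro h1
        apply hξ
        funext i
        fin_cases i
        · exact hc
        · exact h1
      obtain ⟨j, hj, hjz⟩ := hmul (ξ 1) hξ1
      have h2 := key (fun i => j * ξ i) (by
          intro h3
          have := congrFun h3 1
          simp only [Pi.zero_apply, mul_eq_zero, Int.cast_eq_zero] at this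
          exact this.elim hj hξ1) (by
          intro z
          obtain ⟨n, hn⟩ := hz z
          refine ⟨j * n, ?_⟩
          push_cast
          rw [← hn, Finset.mul_sum]
          exact Finset.sum_congr rfl fun i _ => by ring)
      simp only [hc, mul_zero, hH2c, zero_mul, add_zero, mul_eq_zero] at h2
      rcases h2 with h2 | h2
      · exact hH00 h2
      · exact hjz ((hGZ _).1 h2)
    · have h2 := key ξ hξ hz
      have h3 : 0 ≤ H (ξ 0) * G (ξ 1) := mul_nonneg (hH0 _) (hG0 _)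
      have h4 : 0 < H2 (ξ 0) := by
        refine lt_of_le_of_ne (hH20 _) fun h5 => ?_
        rcases (hH2Z _).1 h5.symm with h6 | h6
        · exact absurd (h6 : 1 / 4 ≤ |ξ 0|) (not_le.2 hξ0)
        · exact hc h6
      have h5 : 0 < K (ξ 1) := by
        refine lt_of_le_of_ne (hK0 _) fun h5 => ?_
        exact absurd ((hKZ _).1 h5.symm) (Set.notMem_empty _)
      have h6 := mul_pos h4 h5
      linarith

end Pool.Agent.H998.LT
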