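import Pool.Agent.H998.LT.Defs2
import Pool.Agent.H998.LT.Final

set_option autoImplicit false

open MeasureTheory Real
open scoped FourierTransform ComplexConjugate

namespace Pool.Agent.H998.LT

/-- the example in the plane -/
theorem base (h_seq : S_seq) (h_theta : S_theta) (h_wt : S_wt) (h_main : S_main)
    (h_sigma : S_sigma) (h_mult : S_mult) (h_kernel : S_kernel) (h_bdd : S_bdd) (h_tile : S_tile)
    (h_ft : S_ft) (h_pigeon : S_pigeon2) :
    ∃ (f F : (Fin 2 → ℝ) → ℝ) (Λ : Set (Fin 2 → ℝ)) (w : ℝ), Ex 2 f F Λ w := by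
  obtain ⟨m, hm⟩ := h_seq
  obtain ⟨hth0, hth1, -⟩ := h_theta m hm
  obtain ⟨σ, hσ⟩ := h_sigma (th m) hth0 hth1
  obtain ⟨h0, hmul⟩ := h_mult m hm
  obtain ⟨g, G, C1, hg, hG0, hGZ⟩ := h_kernel (closure (Bad m)) isClosed_closure
    (closure_neg' _ (Bad_neg m))
  obtain ⟨h, H, C2, hh, hH0, hHZ⟩ := h_kernel {x | 1 / 4 ≤ |x|}
    (isClosed_le continuous_const continuous_abs) (fun x hx => by simpa using hx)
  obtain ⟨h2, H2, C3, hh2, hH20, hH2Z⟩ := h_kernel ({x | 1 / 4 ≤ |x|} ∪ {0})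
    ((isClosed_le continuous_const continuous_abs).union isClosed_singleton)
    (fun x hx => by simpa using hx)
  obtain ⟨k, K, C4, hk, hK0, hKZ⟩ := h_kernel ∅ isClosed_empty (by simp)
  set C := max (max C1 C2) (max C3 C4) with hC
  have hg' := hg.mono (C' := C) ((le_max_left _ _).trans (le_max_left _ _))
  have hh' := hh.mono (C' := C) ((le_max_right _ _).trans (le_max_left _ _))
  have hh2' := hh2.mono (C' := C) ((le_max_left _ _).trans (le_max_right _ _))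
  have hk' := hk.mono (C' := C) ((le_max_right _ _).trans (le_max_right _ _))
  have hG00 : G 0 ≠ 0 := fun h => h0 ((hGZ 0).1 h)
  have hH00 : H 0 ≠ 0 := by
    intro h
    have h' := (hHZ 0).1 h
    rw [Set.mem_ofPred_eq, abs_zero] at h'
    norm_num at h'
  have hH2c : H2 0 = 0 := (hH2Z 0).2 (by simp)
  have hv1 : ∀ ξ, 1 / 4 ≤ |ξ| → H ξ = 0 := fun ξ hξ => (hHZ ξ).2 hξ
  have hv2 : ∀ ξ, 1 / 4 ≤ |ξ| → H2 ξ = 0 := fun ξ hξ => (hH2Z ξ).2 (Or.inl hξ)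
  have hmain := h_main m hm σ (fun y => (g y : ℂ)) (fun ξ => (G ξ : ℂ)) C hg'
    (fun ξ hξ => by
      have := (hGZ ξ).2 (subset_closure hξ)
      simp [this])
  obtain ⟨hint, htile⟩ := h_tile (th m) σ hσ (wt m σ) (fun r => (h_wt m hm σ r).2)
    (fun r => (h_wt m hm σ r).1) h g h2 k H G H2 K C hh' hg' hh2' hk' hv1 hv2 hH2c hmain
  refine ⟨ff h g h2 k, fun ξ => H (ξ 0) * G (ξ 1) + H2 (ξ 0) * K (ξ 1),
    Lam (hgt (th m) σ) (wt m σ), H 0 * (4 * G 0), ?_⟩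
  refine ⟨hint, h_bdd (th m) σ (wt m σ) (fun r => (h_wt m hm σ r).2)
    (fun r => (h_wt m hm σ r).1), by positivity, Filter.Eventually.of_forall htile, ?_, ?_, ?_⟩
  · intro ξ
    exact h_ft h g h2 k H G H2 K C hh' hg' hh2' hk' ξ
  · intro ξ
    exact add_nonneg (mul_nonneg (hH0 _) (hG0 _)) (mul_nonneg (hH20 _) (hK0 _))
  · intro b hb
    obtain ⟨z, hz, hz0⟩ := h_pigeon b hb
    set ξ : Fin 2 → ℝ := ∑ i, (z i : ℝ) • b i with hξdef
    have hξ : ξ ≠ 0 := by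
      intro h1
      rw [Fintype.linearIndependent_iff] at hb
      have := hb (fun i => (z i : ℝ)) h1
      apply hz
      funext i
      exact_mod_cast this i
    by_cases hc : ξ 0 = 0
    · have hξ1 : ξ 1 ≠ 0 := by
        intro h1
        apply hξ
        funext i
        fin_cases i
        · exact hc
        · exact h1
      obtain ⟨j, hj, hjz⟩ := hmul (ξ 1) hξ1
      refine ⟨fun i => j * z i, ?_, ?_⟩
      · intro h3
        apply hz
        funext i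
        have := congrFun h3 i
        simp only [Pi.zero_apply, mul_eq_zero] at this
        exact this.resolve_left hj
      · have h4 : (∑ i, (((j * z i : ℤ)) : ℝ) • b i) = (j : ℝ) • ξ := by
          rw [hξdef, Finset.smul_sum]
          refine Finset.sum_congr rfl fun i _ => ?_
          rw [smul_smul]
          push_cast
          rfl
        show H ((∑ i, (((j * z i : ℤ)) : ℝ) • b i) 0) * G ((∑ i, (((j * z i : ℤ)) : ℝ) • b i) 1) +
          H2 ((∑ i, (((j * z i : ℤ)) : ℝ) • b i) 0) * K ((∑ i, (((j * z i : ℤ)) : ℝ) • b i) 1) ≠ 0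
        rw [h4]
        simp only [Pi.smul_apply, smul_eq_mul, hc, mul_zero, hH2c, zero_mul, add_zero]
        exact mul_ne_zero hH00 fun h2 => hjz ((hGZ _).1 h2)
    · refine ⟨z, hz, ?_⟩
      have h3 : 0 ≤ H (ξ 0) * G (ξ 1) := mul_nonneg (hH0 _) (hG0 _)
      have h4 : 0 < H2 (ξ 0) := by
        refine lt_of_le_of_ne (hH20 _) fun h5 => ?_
        rcases (hH2Z _).1 h5.symm with h6 | h6
        · exact absurd (h6 : 1 / 4 ≤ |ξ 0|) (not_le.2 hz0)
        · exact hc h6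
      have h5 : 0 < K (ξ 1) := by
        refine lt_of_le_of_ne (hK0 _) fun h5 => ?_
        exact absurd ((hKZ _).1 h5.symm) (Set.notMem_empty _)
      have h6 := mul_pos h4 h5
      show H (ξ 0) * G (ξ 1) + H2 (ξ 0) * K (ξ 1) ≠ 0
      linarith

theorem step (h_kernel : S_kernel) (h_prodft : S_prodft) (h_tpft : S_tpft) (h_abs : S_abs)
    (h_int : S_int) (h_tile : S_tilestep) (h_bdd : S_bddstep) (h_wit : S_witstep) (d : ℕ)
    (hd : ∃ (f F : (Fin d → ℝ) → ℝ) (Λ : Set (Fin d → ℝ)) (w : ℝ), Ex d f F Λ w) :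
    ∃ (f F : (Fin (d + 1) → ℝ) → ℝ) (Λ : Set (Fin (d + 1) → ℝ)) (w : ℝ), Ex (d + 1) f F Λ w := by
  obtain ⟨f, F, Λ, w, hE⟩ := hd
  obtain ⟨h, H, C2, hh, hH0, hHZ⟩ := h_kernel {x | 1 / 4 ≤ |x|}
    (isClosed_le continuous_const continuous_abs) (fun x hx => by simpa using hx)
  obtain ⟨h2, H2, C3, hh2, hH20, hH2Z⟩ := h_kernel ({x | 1 / 4 ≤ |x|} ∪ {0})
    ((isClosed_le continuous_const continuous_abs).union isClosed_singleton)
    (fun x hx => by simpa using hx)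
  obtain ⟨k, K, C4, hk, hK0, hKZ⟩ := h_kernel ∅ isClosed_empty (by simp)
  have hH00 : H 0 ≠ 0 := by
    intro h
    have h' := (hHZ 0).1 h
    rw [Set.mem_ofPred_eq, abs_zero] at h'
    norm_num at h'
  have hH2c : H2 0 = 0 := (hH2Z 0).2 (by simp)
  have hKpos : ∀ ξ, 0 < K ξ := fun ξ => by
    refine lt_of_le_of_ne (hK0 _) fun h5 => ?_
    exact absurd ((hKZ _).1 h5.symm) (Set.notMem_empty _)
  have hv1 : ∀ ξ, 1 / 4 ≤ |ξ| → H ξ = 0 := fun ξ hξ => (hHZ ξ).2 hξ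
  have hv2 : ∀ ξ, 1 / 4 ≤ |ξ| → H2 ξ = 0 := fun ξ hξ => (hH2Z ξ).2 (Or.inl hξ)
  have hH2pos : ∀ ξ, ξ ≠ 0 → |ξ| < 1 / 4 → 0 < H2 ξ := by
    intro ξ h1 h3
    refine lt_of_le_of_ne (hH20 _) fun h5 => ?_
    rcases (hH2Z _).1 h5.symm with h6 | h6
    · exact absurd (h6 : 1 / 4 ≤ |ξ|) (not_le.2 h3)
    · exact h1 h6
  obtain ⟨htpi, htp⟩ := h_tpft d k K C4 hk
  obtain ⟨i1, f1⟩ := h_prodft d f F hE.int hE.ft h H C2 hh
  obtain ⟨i2, f2⟩ := h_prodft d (tp k) (tp K) htpi htp h2 H2 C3 hh2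
  refine ⟨fun v => pr f h v + pr (tp k) h2 v, fun ξ => pr F H ξ + pr (tp K) H2 ξ, up Λ, w * H 0, ?_⟩
  refine ⟨i1.add i2, h_bdd d Λ hE.bdd, mul_ne_zero hE.ne hH00, ?_, ?_, ?_, ?_⟩
  · refine h_tile d f (tp k) Λ w hE.tiles (h_abs d (tp k) htpi Λ hE.bdd) h h2 (H 0)
      (h_int h H C2 hh hv1) ?_
    intro u
    obtain ⟨h3, h4⟩ := h_int h2 H2 C3 hh2 hv2 u
    rw [hH2c] at h3
    exact ⟨h3, h4⟩
  · intro ξ
    have hb : ∀ (φ : (Fin (d + 1) → ℝ) → ℝ), Integrable φ →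
        Integrable fun v : Fin (d + 1) → ℝ => (φ v : ℂ) * e (-(∑ i, ξ i * v i)) := by
      intro φ hφ
      refine (hφ.ofReal (𝕜 := ℂ)).mul_bdd (c := 1) ?_ (Filter.Eventually.of_forall fun v => ?_)
      · refine Continuous.aestronglyMeasurable ?_
        unfold e
        fun_prop
      · unfold e
        rw [show (2 * (π : ℂ) * ((-(∑ i, ξ i * v i) : ℝ) : ℂ) * Complex.I) =
          ((2 * π * (-(∑ i, ξ i * v i)) : ℝ) : ℂ) * Complex.I by push_cast; ring]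
        rw [Complex.norm_exp_ofReal_mul_I]
    have h5 := f1 ξ
    have h6 := f2 ξ
    have h7 := integral_add (hb _ i1) (hb _ i2)
    rw [h5, h6] at h7
    push_cast
    rw [← h7]
    refine integral_congr_ae (Filter.Eventually.of_forall fun v => ?_)
    simp only
    ring
  · intro ξ
    refine add_nonneg (mul_nonneg (hE.nonneg _) (hH0 _)) (mul_nonneg ?_ (hH20 _))
    exact Finset.prod_nonneg fun i _ => hK0 _
  · exact h_wit d F (tp K) hE.nonneg (fun ξ => Finset.prod_pos fun i _ => hKpos _) hE.wit H H2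
      hH0 hH2pos hH00 hH2c

theorem final2 (h_base : ∃ (f F : (Fin 2 → ℝ) → ℝ) (Λ : Set (Fin 2 → ℝ)) (w : ℝ), Ex 2 f F Λ w)
    (h_step : ∀ d, (∃ (f F : (Fin d → ℝ) → ℝ) (Λ : Set (Fin d → ℝ)) (w : ℝ), Ex d f F Λ w) →
      ∃ (f F : (Fin (d + 1) → ℝ) → ℝ) (Λ : Set (Fin (d + 1) → ℝ)) (w : ℝ), Ex (d + 1) f F Λ w)
    (h_dual : S_dualD) (h_db : S_dualbasis) (d : ℕ) (hd : 2 ≤ d) :
    ∃ (f : (Fin d → ℝ) → ℝ) (Λ : Set (Fin d → ℝ)) (w : ℝ), Integrable f ∧ BddDensity Λ ∧ w ≠ 0 ∧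
      Tiles f Λ w ∧ ∀ A : Matrix (Fin d) (Fin d) ℝ, A.det ≠ 0 → ∀ w' : ℝ,
        ¬ Tiles f (lattice A) w' := by
  have hE : ∃ (f F : (Fin d → ℝ) → ℝ) (Λ : Set (Fin d → ℝ)) (w : ℝ), Ex d f F Λ w := by
    induction d, hd using Nat.le_induction with
    | base => exact h_base
    | succ n hn ih => exact h_step n ih
  obtain ⟨f, F, Λ, w, hE⟩ := hE
  refine ⟨f, Λ, w, hE.int, hE.bdd, hE.ne, hE.tiles, fun A hA w' hT => ?_⟩
  obtain ⟨b, hb, hbz⟩ := h_db d A hA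
  obtain ⟨z, hz, hF⟩ := hE.wit b hb
  have hξ : (∑ i, (z i : ℝ) • b i) ≠ 0 := by
    intro h1
    rw [Fintype.linearIndependent_iff] at hb
    have := hb (fun i => (z i : ℝ)) h1
    apply hz
    funext i
    exact_mod_cast this i
  have h1 := h_dual d f hE.int A hA w' hT _ hξ (hbz z)
  rw [hE.ft] at h1
  exact hF (by exact_mod_cast h1)

end Pool.Agent.H998.LT
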